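import Pool.Agent.H306R2.SM.Defs

set_option autoImplicit false

/-!
Task T9r of the sixth moment project: the normalised Ramanujan sum as a product.
-/

namespace Pool.Agent.H605R2.SM_T9r

open Finset Pool.Agent.H306R2 Pool.Agent.H306R2.SM
open scoped ArithmeticFunction ArithmeticFunction.Moebius ArithmeticFunction.zeta

/-- the additive character as a power -/
theorem ee_pow (h u n : ℕ) :
    ee h ((u : ℤ) * n) = (Complex.exp (2 * Real.pi * Complex.I * ((n : ℂ) / (h : ℂ)))) ^ u := by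
  unfold ee
  rw [← Complex.exp_nat_mul]
  congr 1
  push_cast
  ring

theorem geom (m n : ℕ) (hm : 1 ≤ m) :
    ∑ j ∈ range m, ee m ((j : ℤ) * n) = if m ∣ n then (m : ℂ) else 0 := by
  have hm0 : (m : ℂ) ≠ 0 := by exact_mod_cast (by omega : m ≠ 0)
  simp_rw [ee_pow]
  set z := Complex.exp (2 * Real.pi * Complex.I * ((n : ℂ) / (m : ℂ))) with hz
  have hzm : z ^ m = 1 := by
    rw [hz, ← Complex.exp_nat_mul, Complex.exp_eq_one_iff]
    refine ⟨n, ?_⟩
    field_simp
    push_cast
    ring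
  have hone : z = 1 ↔ m ∣ n := by
    rw [hz, Complex.exp_eq_one_iff]
    constructor
    · rintro ⟨k, hk⟩
      have h1 : ((n : ℂ) / (m : ℂ)) = k := by
        have h2 : (2 * (Real.pi : ℂ) * Complex.I) ≠ 0 := Complex.two_pi_I_ne_zero
        have h3 : (2 * (Real.pi : ℂ) * Complex.I) * ((n : ℂ) / (m : ℂ)) =
          (2 * (Real.pi : ℂ) * Complex.I) * k := by rw [hk]; ring
        exact mul_left_cancel₀ h2 h3
      rw [div_eq_iff hm0] at h1
      have h4 : (n : ℤ) = k * m := by exact_mod_cast h1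
      have : (m : ℤ) ∣ n := ⟨k, by rw [h4]; ring⟩
      exact_mod_cast this
    · rintro ⟨k, hk⟩
      refine ⟨k, ?_⟩
      rw [hk]
      push_cast
      field_simp
  by_cases hd : m ∣ n
  · rw [if_pos hd]
    have : z = 1 := hone.2 hd
    rw [this]
    simp
  · rw [if_neg hd]
    have hz1 : z ≠ 1 := fun h => hd (hone.1 h)
    rw [geom_sum_eq hz1, hzm]
    simp

/-- Moebius over the gcd -/
theorem moeb (g : ℕ) :
    ∑ d ∈ g.divisors, ((ArithmeticFunction.moebius d : ℤ) : ℂ) = if g = 1 then 1 else 0 := by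
  have h1 := congrArg (fun f : ArithmeticFunction ℤ => f g)
    ArithmeticFunction.moebius_mul_coe_zeta
  simp only [ArithmeticFunction.coe_mul_zeta_apply, ArithmeticFunction.one_apply] at h1
  rw [← Int.cast_sum, h1]
  split_ifs <;> simp

theorem sum_coprime (h : ℕ) (hh : 1 ≤ h) (F : ℕ → ℂ) :
    ∑ u ∈ (range h).filter (fun u => Nat.Coprime u h), F u =
      ∑ d ∈ h.divisors, ((ArithmeticFunction.moebius d : ℤ) : ℂ) *
        ∑ j ∈ range (h / d), F (d * j) := by
  have hh0 : h ≠ 0 := by omega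
  have e1 : ∑ u ∈ (range h).filter (fun u => Nat.Coprime u h), F u =
      ∑ u ∈ range h, ∑ d ∈ h.divisors, if d ∣ u then
        ((ArithmeticFunction.moebius d : ℤ) : ℂ) * F u else 0 := by
    rw [sum_filter]
    refine sum_congr rfl fun u _ => ?_
    rw [← sum_filter, ← sum_mul]
    have : h.divisors.filter (fun d => d ∣ u) = (Nat.gcd u h).divisors := by
      ext d
      simp only [mem_filter, Nat.mem_divisors, Nat.dvd_gcd_iff, ne_eq, Nat.gcd_eq_zero_iff]
      constructor
      · rintro ⟨⟨a, b⟩, c⟩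
        exact ⟨⟨c, a⟩, fun h => b h.2⟩
      · rintro ⟨⟨a, b⟩, c⟩
        exact ⟨⟨b, hh0⟩, a⟩
    rw [this, moeb]
    by_cases hc : Nat.Coprime u h
    · rw [if_pos hc, if_pos hc, one_mul]
    · rw [if_neg hc, if_neg (by exact hc), zero_mul]
  rw [e1, sum_comm]
  refine sum_congr rfl fun d hd => ?_
  obtain ⟨hdh, -⟩ := Nat.mem_divisors.1 hd
  have hd0 : 0 < d := Nat.pos_of_dvd_of_pos hdh (by omega)
  rw [← sum_filter, ← mul_sum]
  congr 1
  symm
  refine sum_bij (fun j _ => d * j) ?_ ?_ ?_ ?_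
  · intro j hj
    rw [mem_range] at hj
    rw [mem_filter, mem_range]
    refine ⟨?_, dvd_mul_right _ _⟩
    calc d * j < d * (h / d) := by
          exact Nat.mul_lt_mul_of_pos_left hj hd0
      _ = h := Nat.mul_div_cancel' hdh
  · intro a _ b _ hab
    exact Nat.eq_of_mul_eq_mul_left hd0 hab
  · intro u hu
    rw [mem_filter, mem_range] at hu
    obtain ⟨k, hk⟩ := hu.2
    refine ⟨k, ?_, hk.symm⟩
    rw [mem_range]
    have h1 : d * k < d * (h / d) := by rw [Nat.mul_div_cancel' hdh, ← hk]; exact hu.1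
    exact Nat.lt_of_mul_lt_mul_left h1
  · intro j _
    rfl

/-- `f_n (m) = m [m ∣ n]` -/
noncomputable def fn (n : ℕ) : ArithmeticFunction ℝ :=
  ⟨fun m => if m ∣ n then (m : ℝ) else 0, by split_ifs <;> simp⟩

theorem fn_apply (n m : ℕ) : fn n m = if m ∣ n then (m : ℝ) else 0 := rfl

theorem fn_mult (n : ℕ) : (fn n).IsMultiplicative := by
  refine ⟨by simp [fn_apply], ?_⟩
  intro a b hab
  rw [fn_apply, fn_apply, fn_apply]
  by_cases ha : a ∣ n
  · by_cases hb : b ∣ n
    · rw [if_pos ha, if_pos hb, if_pos (hab.mul_dvd_of_dvd_of_dvd ha hb)]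
      push_cast
      ring
    · rw [if_neg hb, if_neg (fun h => hb ((dvd_mul_left _ _).trans h)), mul_zero]
  · rw [if_neg ha, if_neg (fun h => ha ((dvd_mul_right _ _).trans h)), zero_mul]

/-- the Ramanujan sum as an arithmetic function of the modulus -/
noncomputable def gn (n : ℕ) : ArithmeticFunction ℝ :=
  (ArithmeticFunction.moebius : ArithmeticFunction ℝ) * fn n

theorem gn_mult (n : ℕ) : (gn n).IsMultiplicative :=
  ArithmeticFunction.isMultiplicative_moebius.intCast.mul (fn_mult n)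

theorem gn_apply (n h : ℕ) :
    gn n h = ∑ d ∈ h.divisors, ((ArithmeticFunction.moebius d : ℤ) : ℝ) * fn n (h / d) := by
  unfold gn
  rw [ArithmeticFunction.mul_apply,
    Nat.sum_divisorsAntidiagonal (fun a b =>
      ((ArithmeticFunction.moebius : ArithmeticFunction ℝ) a) * fn n b)]
  rfl

theorem sum_eq_gn (h n : ℕ) (hh : 1 ≤ h) :
    ∑ u ∈ (range h).filter (fun u => Nat.Coprime u h), ee h ((u : ℤ) * n) =
      ((gn n h : ℝ) : ℂ) := by
  rw [sum_coprime h hh (fun u => ee h ((u : ℤ) * n)), gn_apply]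
  push_cast
  refine sum_congr rfl fun d hd => ?_
  obtain ⟨hdh, -⟩ := Nat.mem_divisors.1 hd
  have hd0 : 0 < d := Nat.pos_of_dvd_of_pos hdh (by omega)
  have hq : 1 ≤ h / d := Nat.div_pos (Nat.le_of_dvd (by omega) hdh) hd0
  congr 1
  rw [fn_apply]
  have : ∀ j ∈ range (h / d), ee h (((d : ℤ) * (j : ℤ)) * n) = ee (h / d) ((j : ℤ) * n) := by
    intro j _
    unfold ee
    congr 2
    have h1 : (h : ℂ) = (d : ℂ) * ((h / d : ℕ) : ℂ) := by
      rw [← Nat.cast_mul, Nat.mul_div_cancel' hdh]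
    have hd1 : (d : ℂ) ≠ 0 := by exact_mod_cast hd0.ne'
    have hq1 : ((h / d : ℕ) : ℂ) ≠ 0 := by exact_mod_cast (by omega : h / d ≠ 0)
    rw [h1]
    push_cast
    field_simp
  rw [sum_congr rfl this, geom _ _ hq]
  split_ifs <;> simp

theorem gn_prime_pow (n p a : ℕ) (hp : p.Prime) (ha : 1 ≤ a) :
    gn n (p ^ a) = fn n (p ^ a) - fn n (p ^ (a - 1)) := by
  rw [gn_apply, Nat.sum_divisors_prime_pow hp]
  obtain ⟨b, rfl⟩ : ∃ b, a = b + 1 := ⟨a - 1, by omega⟩
  rw [sum_range_succ', sum_range_succ']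
  have h0 : ∑ k ∈ range b, ((ArithmeticFunction.moebius (p ^ (k + 1 + 1)) : ℤ) : ℝ) *
      fn n (p ^ (b + 1) / p ^ (k + 1 + 1)) = 0 := by
    refine sum_eq_zero fun k _ => ?_
    rw [ArithmeticFunction.moebius_apply_prime_pow hp (by omega), if_neg (by omega)]
    simp
  rw [h0]
  have h1 : p ^ (b + 1) / p ^ (0 + 1) = p ^ b := by
    rw [zero_add, pow_one, pow_succ, Nat.mul_div_cancel _ hp.pos]
  rw [h1]
  simp [ArithmeticFunction.moebius_apply_prime hp]
  ring

theorem rc_real (h n : ℕ) (hh : 1 ≤ h) (hn : 1 ≤ n) :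
    rc h n = ((∏ p ∈ h.primeFactors,
      (if n.factorization p + 1 < h.factorization p then 0
        else if n.factorization p + 1 = h.factorization p then -(1 / ((p : ℝ) - 1))
        else 1) : ℝ) : ℂ) := by
  have hh0 : h ≠ 0 := by omega
  have hn0 : n ≠ 0 := by omega
  unfold rc
  rw [sum_eq_gn h n hh, ← Complex.ofReal_natCast, ← Complex.ofReal_div]
  congr 1
  rw [(gn_mult n).multiplicative_factorization (gn n) hh0, Nat.totient_eq_prod_factorization hh0,
    Finsupp.prod, Finsupp.prod, Nat.support_factorization, Nat.cast_prod, ← prod_div_distrib]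
  refine prod_congr rfl fun p hp => ?_
  have hpp : p.Prime := Nat.prime_of_mem_primeFactors hp
  have hp1 : (1 : ℝ) < p := by exact_mod_cast hpp.one_lt
  have ha : 1 ≤ h.factorization p :=
    hpp.factorization_pos_of_dvd hh0 (Nat.dvd_of_mem_primeFactors hp)
  set a := h.factorization p with hadef
  set v := n.factorization p with hvdef
  rw [gn_prime_pow n p a hpp ha, fn_apply, fn_apply]
  simp only [hpp.pow_dvd_iff_le_factorization hn0, ← hvdef]
  have hp0 : (0 : ℝ) < p := by linarith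
  have hpow : (p : ℝ) ^ (a - 1) ≠ 0 := (pow_pos hp0 _).ne'
  have hpm : (p : ℝ) - 1 ≠ 0 := by linarith
  have hcast : ((p ^ (a - 1) * (p - 1) : ℕ) : ℝ) = (p : ℝ) ^ (a - 1) * ((p : ℝ) - 1) := by
    rw [Nat.cast_mul, Nat.cast_pow, Nat.cast_sub hpp.one_lt.le, Nat.cast_one]
  rw [hcast]
  by_cases h1 : v + 1 < a
  · rw [if_neg (by omega), if_neg (by omega), if_pos h1]
    simp
  · by_cases h2 : v + 1 = a
    · rw [if_neg (by omega), if_pos (by omega), if_neg h1, if_pos h2]
      push_cast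
      field_simp
      try ring
    · rw [if_pos (by omega), if_pos (by omega), if_neg h1, if_neg h2]
      have h3 : (p : ℝ) ^ a = (p : ℝ) ^ (a - 1) * p := by
        rw [← pow_succ]
        congr 1
        omega
      push_cast
      rw [h3]
      field_simp

end Pool.Agent.H605R2.SM_T9r
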