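import Pool.Agent.H306R2.SM.Defs
import Pool.Agent.H605R2.SM_T9r

set_option autoImplicit false

/-!
Task T9b1 of the sixth moment project: `d3(n) c_h(n)/φ(h) = Σ_{e | n} ρ(h,e) d3(n/e)`.
-/

namespace Pool.Agent.H605R2.SM_T9b1

open Finset Pool.Agent.H306R2 Pool.Agent.H306R2.SM

theorem sum_div_mul {m n : ℕ} (hmn : Nat.Coprime m n) (F : ℕ → ℝ) :
    ∑ e ∈ (m * n).divisors, F e = ∑ a ∈ m.divisors, ∑ b ∈ n.divisors, F (a * b) := by
  rw [Nat.divisors_mul, Finset.mul_def, sum_image hmn.mul_injOn_divisors, sum_product]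

/-- restricted product coefficients -/
noncomputable def RS (S : Finset ℕ) (L : ℕ → ℕ → ℝ) (e : ℕ) : ℝ :=
  if e.primeFactors ⊆ S then ∏ p ∈ S, L p (e.factorization p) else 0

theorem RS_step (S : Finset ℕ) (L : ℕ → ℕ → ℝ) (q k b : ℕ) (hq : q.Prime) (hqS : q ∉ S)
    (hb : b ≠ 0) (hqb : ¬ q ∣ b) :
    RS (insert q S) L (q ^ k * b) = L q k * RS S L b := by
  have hqk : q ^ k ≠ 0 := pow_ne_zero _ hq.ne_zero
  have h1 : (q ^ k * b).primeFactors ⊆ insert q S ↔ b.primeFactors ⊆ S := by
    rw [Nat.primeFactors_mul hqk hb]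
    constructor
    · intro h p hp
      have h2 := h (mem_union_right _ hp)
      rcases mem_insert.1 h2 with h3 | h3
      · exact absurd (h3 ▸ Nat.dvd_of_mem_primeFactors hp) hqb
      · exact h3
    · intro h
      refine union_subset ?_ (h.trans (subset_insert _ _))
      intro p hp
      have h2 : p = q := by
        have := Nat.dvd_of_mem_primeFactors hp
        exact (Nat.prime_dvd_prime_iff_eq (Nat.prime_of_mem_primeFactors hp) hq).1
          ((Nat.prime_of_mem_primeFactors hp).dvd_of_dvd_pow this)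
      rw [h2]
      exact mem_insert_self _ _
  have hfb : b.factorization q = 0 := Nat.factorization_eq_zero_of_not_dvd hqb
  unfold RS
  by_cases h : b.primeFactors ⊆ S
  · rw [if_pos h, if_pos (h1.2 h), prod_insert hqS]
    congr 1
    · rw [Nat.factorization_mul hqk hb, Nat.factorization_pow]
      simp [hq.factorization_self, hfb]
    · refine prod_congr rfl fun p hp => ?_
      have hpq : p ≠ q := fun h => hqS (h ▸ hp)
      rw [Nat.factorization_mul hqk hb, Nat.factorization_pow]
      simp [hq.factorization, hpq.symm]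
  · rw [if_neg h, if_neg (fun h2 => h (h1.1 h2)), mul_zero]

theorem main (L r : ℕ → ℕ → ℝ) (S : Finset ℕ) :
    (∀ p ∈ S, p.Prime) →
    (∀ p ∈ S, ∀ v, ∑ j ∈ range (v + 1), L p j * dv 3 (p ^ (v - j)) = dv 3 (p ^ v) * r p v) →
    ∀ n : ℕ, n ≠ 0 → ∑ e ∈ n.divisors, RS S L e * dv 3 (n / e) =
      dv 3 n * ∏ p ∈ S, r p (n.factorization p) := by
  refine Finset.induction_on S ?_ ?_
  · intro _ _ n hn
    rw [sum_eq_single 1]
    · simp [RS]
    · intro e he he1
      have he0 : e ≠ 0 := by
        rintro rfl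
        simp at he
      have : ¬ e.primeFactors ⊆ ∅ := by
        rw [subset_empty, Nat.primeFactors_eq_empty]
        rintro (h | h)
        · exact he0 h
        · exact he1 h
      unfold RS
      rw [if_neg this, zero_mul]
    · intro h
      exact absurd (Nat.one_mem_divisors.2 hn) h
  · intro q S hqS ih hS hloc n hn
    have hq : q.Prime := hS q (mem_insert_self _ _)
    have ih' := ih (fun p hp => hS p (mem_insert_of_mem hp))
      (fun p hp => hloc p (mem_insert_of_mem hp))
    set v := n.factorization q with hv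
    obtain ⟨n', hn'⟩ : ∃ n', n = q ^ v * n' := ⟨n / q ^ v, (Nat.ordProj_mul_ordCompl_eq_self n q).symm⟩
    have hn'0 : n' ≠ 0 := by
      rintro rfl
      exact hn (by rw [hn', mul_zero])
    have hqn' : ¬ q ∣ n' := by
      have h1 : n.factorization q = v + n'.factorization q := by
        conv_lhs => rw [hn']
        rw [Nat.factorization_mul (pow_ne_zero _ hq.ne_zero) hn'0, Nat.factorization_pow]
        simp [hq.factorization_self]
      have h2 : n'.factorization q = 0 := by omega
      intro h3
      have := hq.factorization_pos_of_dvd hn'0 h3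
      omega
    have hcop : Nat.Coprime (q ^ v) n' := Nat.Coprime.pow_left _ ((hq.coprime_iff_not_dvd).2 hqn')
    have e1 : ∑ e ∈ n.divisors, RS (insert q S) L e * dv 3 (n / e) =
        ∑ k ∈ range (v + 1), ∑ b ∈ n'.divisors,
          (L q k * dv 3 (q ^ (v - k))) * (RS S L b * dv 3 (n' / b)) := by
      conv_lhs => rw [hn']
      rw [sum_div_mul hcop, Nat.sum_divisors_prime_pow hq]
      refine sum_congr rfl fun k hk => sum_congr rfl fun b hb => ?_
      have hkv : k ≤ v := by
        have := mem_range.1 hk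
        omega
      obtain ⟨hbn, -⟩ := Nat.mem_divisors.1 hb
      have hb0 : b ≠ 0 := by
        rintro rfl
        exact hn'0 (zero_dvd_iff.1 hbn)
      rw [RS_step S L q k b hq hqS hb0 (fun h => hqn' (h.trans hbn))]
      have e2 : q ^ v * n' / (q ^ k * b) = q ^ (v - k) * (n' / b) := by
        rw [Nat.mul_div_mul_comm (pow_dvd_pow q hkv) hbn, Nat.pow_div hkv hq.pos]
      have hc2 : Nat.Coprime (q ^ (v - k)) (n' / b) := by
        refine Nat.Coprime.pow_left _ ((hq.coprime_iff_not_dvd).2 fun h => hqn' ?_)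
        exact h.trans (Nat.div_dvd_of_dvd hbn)
      rw [e2, ← dA_apply, (dA_mult 3).2 hc2, dA_apply, dA_apply]
      ring
    rw [e1, ← sum_mul_sum, hloc q (mem_insert_self _ _) v, ih' n' hn'0, prod_insert hqS]
    have e3 : dv 3 n = dv 3 (q ^ v) * dv 3 n' := by
      conv_lhs => rw [hn']
      rw [← dA_apply, (dA_mult 3).2 hcop, dA_apply, dA_apply]
    have e4 : ∏ p ∈ S, r p (n'.factorization p) = ∏ p ∈ S, r p (n.factorization p) := by
      refine prod_congr rfl fun p hp => ?_
      have hpq : p ≠ q := fun h => hqS (h ▸ hp)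
      congr 1
      conv_rhs => rw [hn']
      rw [Nat.factorization_mul (pow_ne_zero _ hq.ne_zero) hn'0, Nat.factorization_pow]
      simp [hq.factorization, hpq.symm]
    rw [e3, e4, ← hv]
    ring

theorem lc3 (m : ℕ) : lc 3 m = ((m : ℝ) + 1) * (m + 2) / 2 := by
  induction m with
  | zero => rw [lc_zero]; norm_num
  | succ m ih =>
    rw [lc_succ, ih]
    push_cast
    have : (m : ℝ) + 1 ≠ 0 := by positivity
    field_simp
    ring

theorem local_id (p b v : ℕ) (hp : p.Prime) :
    ∑ j ∈ range (v + 1), rloc p (b + 1) j * dv 3 (p ^ (v - j)) = dv 3 (p ^ v) *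
      (if v + 1 < b + 1 then 0 else if v + 1 = b + 1 then -(1 / ((p : ℝ) - 1)) else 1) := by
  simp only [dv_prime_pow 3 hp, lc3]
  have hz : ∀ j, j < b → rloc p (b + 1) j = 0 := by
    intro j hj
    unfold rloc
    rw [if_neg (by omega), if_neg (by omega), if_neg (by omega), if_neg (by omega)]
  by_cases hvb : v < b
  · rw [if_pos (by omega), mul_zero]
    refine sum_eq_zero fun j hj => ?_
    rw [hz j (by have := mem_range.1 hj; omega), zero_mul]
  · obtain ⟨c, rfl⟩ : ∃ c, v = b + c := ⟨v - b, by omega⟩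
    rw [if_neg (by omega)]
    rw [show b + c + 1 = b + (c + 1) by ring, sum_range_add]
    have h0 : ∑ j ∈ range b, rloc p (b + 1) j *
        ((((b + c - j : ℕ) : ℝ) + 1) * (((b + c - j : ℕ) : ℝ) + 2) / 2) = 0 := by
      refine sum_eq_zero fun j hj => ?_
      rw [hz j (mem_range.1 hj), zero_mul]
    rw [h0, zero_add]
    have hsub : ∀ i, b + c - (b + i) = c - i := fun i => by omega
    simp only [hsub]
    have g0 : rloc p (b + 1) (b + 0) = -(((b : ℝ) + 1) * (b + 2) / 2) / (p - 1) := by
      unfold rloc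
      rw [if_pos (by omega)]
      push_cast
      ring
    have g1 : rloc p (b + 1) (b + 1) = ((b : ℝ) + 2) * (b + 3) / 2 +
        3 * (((b : ℝ) + 1) * (b + 2) / 2) / (p - 1) := by
      unfold rloc
      rw [if_neg (by omega), if_pos rfl]
      push_cast
      ring
    have g2 : rloc p (b + 1) (b + 2) = -(((b : ℝ) + 1) * (b + 3)) -
        3 * (((b : ℝ) + 1) * (b + 2) / 2) / (p - 1) := by
      unfold rloc
      rw [if_neg (by omega), if_neg (by omega), if_pos (by omega)]
      push_cast
      ring
    have g3 : rloc p (b + 1) (b + 3) = ((b : ℝ) + 1) * (b + 2) / 2 +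
        (((b : ℝ) + 1) * (b + 2) / 2) / (p - 1) := by
      unfold rloc
      rw [if_neg (by omega), if_neg (by omega), if_neg (by omega), if_pos (by omega)]
      push_cast
      ring
    have g4 : ∀ i, rloc p (b + 1) (b + (4 + i)) = 0 := by
      intro i
      unfold rloc
      rw [if_neg (by omega), if_neg (by omega), if_neg (by omega), if_neg (by omega)]
    match c with
    | 0 =>
      rw [if_pos (by omega)]
      simp only [sum_range_succ, sum_range_zero, g0]
      push_cast
      ring
    | 1 =>
      rw [if_neg (by omega)]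
      simp only [sum_range_succ, sum_range_zero, g0, g1]
      push_cast
      ring
    | 2 =>
      rw [if_neg (by omega)]
      simp only [sum_range_succ, sum_range_zero, g0, g1, g2]
      push_cast
      ring
    | (w + 3) =>
      rw [if_neg (by omega)]
      rw [show w + 3 + 1 = 4 + w by ring, sum_range_add]
      have h4 : ∑ i ∈ range w, rloc p (b + 1) (b + (4 + i)) *
          ((((w + 3 - (4 + i) : ℕ) : ℝ) + 1) * (((w + 3 - (4 + i) : ℕ) : ℝ) + 2) / 2) = 0 := by
        refine sum_eq_zero fun i _ => ?_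
        rw [g4, zero_mul]
      rw [h4, add_zero]
      simp only [sum_range_succ, sum_range_zero, g0, g1, g2, g3]
      have s0 : w + 3 - 0 = w + 3 := rfl
      have s1 : w + 3 - 1 = w + 2 := rfl
      have s2 : w + 3 - 2 = w + 1 := rfl
      have s3 : w + 3 - 3 = w := rfl
      rw [s0, s1, s2, s3]
      push_cast
      ring

theorem rho_conv (h n : ℕ) (hh : 1 ≤ h) (hn : 1 ≤ n) :
    (d3 n : ℂ) * rc h n = ((∑ e ∈ n.divisors, rho h e * d3 (n / e) : ℝ) : ℂ) := by
  have hh0 : h ≠ 0 := by omega
  have hn0 : n ≠ 0 := by omega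
  rw [SM_T9r.rc_real h n hh hn, ← Complex.ofReal_mul]
  congr 1
  have key := main (fun p j => rloc p (h.factorization p) j)
    (fun p v => if v + 1 < h.factorization p then 0
        else if v + 1 = h.factorization p then -(1 / ((p : ℝ) - 1)) else 1)
    h.primeFactors (fun p hp => Nat.prime_of_mem_primeFactors hp) ?_ n hn0
  · unfold d3
    rw [← key]
    refine sum_congr rfl fun e he => ?_
    have he0 : e ≠ 0 := by
      rintro rfl
      simp at he
    congr 1
    unfold RS rho
    by_cases h1 : e.primeFactors ⊆ h.primeFactors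
    · rw [if_pos h1, if_pos ⟨he0, h1⟩]
    · rw [if_neg h1, if_neg (fun h2 => h1 h2.2)]
  · intro p hp v
    have hpp : p.Prime := Nat.prime_of_mem_primeFactors hp
    have ha : 1 ≤ h.factorization p :=
      hpp.factorization_pos_of_dvd hh0 (Nat.dvd_of_mem_primeFactors hp)
    obtain ⟨b, hb⟩ : ∃ b, h.factorization p = b + 1 := ⟨h.factorization p - 1, by omega⟩
    simp only [hb]
    exact local_id p b v hpp

end Pool.Agent.H605R2.SM_T9b1
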