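import Mathlib
import Pool.Agent.H476R2.Pal.SDefs
import Pool.Agent.Helper923.PPS.Selberg

/-! Selberg's upper bound sieve with weights bounded by one (task S1 of helper476) -/

set_option autoImplicit false

namespace Pool.Agent.H605R2.PalS1

open Finset Nat ArithmeticFunction BoundingSieve Pool.Agent.H476R2.Pal Pool.Agent.Helper923.PPS
open scoped ArithmeticFunction.Moebius

lemma PZ_prime {z p : ℕ} (hp : p ∈ (range z).filter (fun p => p.Prime ∧ ¬ p ∣ 10)) : p.Prime := by
  rw [Finset.mem_filter] at hp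
  exact hp.2.1

lemma PZ_sqf (z : ℕ) : Squarefree (PZ z) := by
  unfold PZ
  refine Finset.squarefree_prod_of_pairwise_isCoprime ?_ ?_
  · intro a ha b hb hab
    exact Nat.coprime_iff_isRelPrime.1
      ((Nat.coprime_primes (PZ_prime ha) (PZ_prime hb)).2 hab)
  · intro a ha
    exact (PZ_prime ha).prime.squarefree

/-- the density `1/n` -/
noncomputable def nuI : ArithmeticFunction ℝ := ⟨fun n => 1 / (n : ℝ), by simp⟩

lemma nuI_apply (n : ℕ) : nuI n = 1 / (n : ℝ) := rfl

lemma nuI_mult : nuI.IsMultiplicative := by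
  refine ⟨by simp [nuI_apply], ?_⟩
  intro m n _
  simp only [nuI_apply, Nat.cast_mul]
  rw [one_div, one_div, one_div, mul_inv]

/-- the sieve -/
noncomputable def sv {ι : Type} (S : Finset ι) (v : ι → ℕ) (X : ℝ) (z d : ℕ) : BoundingSieve where
  support := S.image v
  prodPrimes := PZ z
  prodPrimes_squarefree := PZ_sqf z
  weights := fun n => ((S.filter (fun i => v i = n ∧ d ∣ n)).card : ℝ)
  weights_nonneg := fun n => Nat.cast_nonneg _
  totalMass := X / d
  nu := nuI
  nu_mult := nuI_mult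
  nu_pos_of_prime := by
    intro p hp _
    rw [nuI_apply]
    have : (0 : ℝ) < p := by exact_mod_cast hp.pos
    positivity
  nu_lt_one_of_prime := by
    intro p hp _
    rw [nuI_apply, div_lt_one (by exact_mod_cast hp.pos)]
    exact_mod_cast hp.one_lt

section
variable {ι : Type} (S : Finset ι) (v : ι → ℕ) (X : ℝ) (z d : ℕ)

lemma sum_fib (P : ℕ → Prop) [DecidablePred P] :
    (∑ n ∈ S.image v, if P n then ((S.filter (fun i => v i = n ∧ d ∣ n)).card : ℝ) else 0) =
      ((S.filter (fun i => d ∣ v i ∧ P (v i))).card : ℝ) := by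
  classical
  rw [← Finset.sum_filter]
  rw [← Nat.cast_sum]
  congr 1
  rw [Finset.card_eq_sum_card_fiberwise (f := v) (t := (S.image v).filter P)]
  · apply Finset.sum_congr rfl
    intro n hn
    rw [Finset.mem_filter] at hn
    congr 1
    ext i
    simp only [Finset.mem_filter]
    constructor
    · rintro ⟨hi, rfl, hd⟩
      exact ⟨⟨hi, hd, hn.2⟩, rfl⟩
    · rintro ⟨⟨hi, hd, _⟩, rfl⟩
      exact ⟨hi, rfl, hd⟩
  · intro i hi
    simp only [Finset.coe_filter, Finset.mem_filter, Set.mem_setOf_eq, Finset.mem_image] at hi ⊢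
    exact ⟨⟨i, hi.1, rfl⟩, hi.2.2⟩

lemma sv_sifted : (sv S v X z d).siftedSum = sift S v d z := by
  unfold siftedSum sift
  have := sum_fib S v d (fun n => Nat.Coprime (PZ z) n)
  have h2 : (∑ n ∈ (sv S v X z d).support,
      if Nat.Coprime (sv S v X z d).prodPrimes n then (sv S v X z d).weights n else 0) =
      ((S.filter (fun i => d ∣ v i ∧ Nat.Coprime (PZ z) (v i))).card : ℝ) := this
  rw [h2]
  congr 2
  ext i
  simp only [Finset.mem_filter, Nat.coprime_comm]

lemma sv_rem {l : ℕ} (hd0 : 0 < d) (hl0 : 0 < l) (hdl : d.Coprime l) :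
    (sv S v X z d).rem l = Pool.Agent.H476R2.Pal.rem S v X (d * l) := by
  unfold BoundingSieve.rem Pool.Agent.H476R2.Pal.rem BoundingSieve.multSum
  have := sum_fib S v d (fun n => l ∣ n)
  have h2 : (∑ n ∈ (sv S v X z d).support,
      if l ∣ n then (sv S v X z d).weights n else 0) =
      ((S.filter (fun i => d ∣ v i ∧ l ∣ v i)).card : ℝ) := this
  rw [h2]
  congr 1
  · congr 2
    ext i
    simp only [Finset.mem_filter]
    constructor
    · rintro ⟨hi, h1, h2⟩
      exact ⟨hi, hdl.mul_dvd_of_dvd_of_dvd h1 h2⟩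
    · rintro ⟨hi, h⟩
      exact ⟨hi, (dvd_mul_right d l).trans h, (dvd_mul_left l d).trans h⟩
  · change nuI l * (X / d) = X / ((d * l : ℕ) : ℝ)
    rw [nuI_apply]
    have h1 : (d : ℝ) ≠ 0 := by exact_mod_cast hd0.ne'
    have h2 : (l : ℝ) ≠ 0 := by exact_mod_cast hl0.ne'
    push_cast
    field_simp

lemma sv_terms {l : ℕ} (hl0 : 0 < l) : (sv S v X z d).selbergTerms l = 1 / (l.totient : ℝ) := by
  rw [selbergTerms_apply]
  change nuI l * ∏ p ∈ l.primeFactors, (1 - nuI p)⁻¹ = _
  simp only [nuI_apply]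
  have h := Nat.totient_eq_mul_prod_factors l
  have h2 : ((l.totient : ℕ) : ℝ) = (l : ℝ) * ∏ p ∈ l.primeFactors, (1 - 1 / (p : ℝ)) := by
    have := congrArg (fun q : ℚ => (q : ℝ)) h
    push_cast at this
    rw [this]
    congr 1
    apply Finset.prod_congr rfl
    intro p _
    rw [one_div]
  rw [h2, Finset.prod_inv_distrib]
  rw [one_div, one_div, mul_inv]

lemma sv_S (ξ : ℝ) : selS (sv S v X z d) ξ = GZ ξ z := by
  unfold selS GZ
  apply Finset.sum_congr rfl
  intro l hl
  rw [Finset.mem_filter, Nat.mem_divisors] at hl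
  exact sv_terms S v X z d (Nat.pos_of_ne_zero (fun h => by
    rw [h] at hl; exact hl.1.2 (Nat.eq_zero_of_zero_dvd hl.1.1)))

/-- the Selberg weights are bounded by one -/
lemma sv_W {ξ : ℝ} (hξ : 1 ≤ ξ) {e : ℕ} (he : e ∣ PZ z) : |selW (sv S v X z d) ξ e| ≤ 1 := by
  set s := sv S v X z d with hs
  have hPsq := PZ_sqf z
  have hP0 : PZ z ≠ 0 := hPsq.ne_zero
  have he0 : 0 < e := Nat.pos_of_ne_zero (fun h => by
    rw [h] at he; exact hP0 (Nat.eq_zero_of_zero_dvd he))
  have hesq : Squarefree e := hPsq.squarefree_of_dvd he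
  have hSpos := selS_pos s ξ hξ
  -- the function g
  have hgpos : ∀ l, l ∣ PZ z → 0 < s.selbergTerms l := fun l hl => selbergTerms_pos (s := s) hl
  have hgmul : s.selbergTerms.IsMultiplicative := selbergTerms_isMultiplicative (s := s)
  -- index set
  set M := (divisors (PZ z)).filter (fun m : ℕ => m.Coprime e ∧ ((e * m : ℕ) : ℝ) ≤ ξ) with hM
  have hsum1 : (∑ l ∈ (divisors s.prodPrimes).filter (fun l : ℕ => e ∣ l ∧ (l : ℝ) ≤ ξ),
      s.selbergTerms l) = s.selbergTerms e * ∑ m ∈ M, s.selbergTerms m := by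
    rw [Finset.mul_sum]
    have himg : (divisors s.prodPrimes).filter (fun l : ℕ => e ∣ l ∧ (l : ℝ) ≤ ξ) =
        M.image (fun m => e * m) := by
      ext l
      simp only [hM, Finset.mem_filter, Nat.mem_divisors, Finset.mem_image]
      constructor
      · rintro ⟨⟨h1, _⟩, ⟨m, rfl⟩, h3⟩
        have hsq : Squarefree (e * m) := hPsq.squarefree_of_dvd h1
        exact ⟨m, ⟨⟨(Nat.dvd_mul_left m e).trans h1, hP0⟩, (Nat.coprime_of_squarefree_mul hsq).symm, h3⟩, rfl⟩
      · rintro ⟨m, ⟨⟨h1, _⟩, h2, h3⟩, rfl⟩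
        exact ⟨⟨(h2.symm).mul_dvd_of_dvd_of_dvd he h1, hP0⟩, dvd_mul_right _ _, h3⟩
    rw [himg, Finset.sum_image (by
      intro a _ b _ hab
      exact Nat.eq_of_mul_eq_mul_left he0 hab)]
    apply Finset.sum_congr rfl
    intro m hm
    rw [hM, Finset.mem_filter] at hm
    exact hgmul.map_mul_of_coprime hm.2.1.symm
  have hsum2 : (∑ f ∈ divisors e, s.selbergTerms f) * ∑ m ∈ M, s.selbergTerms m ≤ selS s ξ := by
    rw [Finset.sum_mul_sum, ← Finset.sum_product']
    unfold selS
    have hinj : Set.InjOn (fun x : ℕ × ℕ => x.1 * x.2) (divisors e ×ˢ M : Finset (ℕ × ℕ)) := by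
      rintro ⟨f, m⟩ h1 ⟨f', m'⟩ h2 h
      simp only [Finset.coe_product, Set.mem_prod, Finset.mem_coe, hM, Finset.mem_filter,
        Nat.mem_divisors] at h1 h2 h
      have hf : Nat.gcd (f * m) e = f := by
        rw [Nat.Coprime.gcd_mul_right_cancel f h1.2.2.1]
        exact Nat.gcd_eq_left h1.1.1
      have hf' : Nat.gcd (f' * m') e = f' := by
        rw [Nat.Coprime.gcd_mul_right_cancel f' h2.2.2.1]
        exact Nat.gcd_eq_left h2.1.1
      have hff : f = f' := by rw [← hf, ← hf', h]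
      subst hff
      have hf0 : 0 < f := Nat.pos_of_dvd_of_pos h1.1.1 he0
      rw [Nat.eq_of_mul_eq_mul_left hf0 h]
    calc (∑ x ∈ divisors e ×ˢ M, s.selbergTerms x.1 * s.selbergTerms x.2)
        = ∑ x ∈ divisors e ×ˢ M, s.selbergTerms (x.1 * x.2) := by
          apply Finset.sum_congr rfl
          rintro ⟨f, m⟩ h1
          simp only [Finset.mem_product, hM, Finset.mem_filter, Nat.mem_divisors] at h1
          exact (hgmul.map_mul_of_coprime
            (Nat.Coprime.coprime_dvd_left h1.1.1 h1.2.2.1.symm)).symm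
      _ = ∑ l ∈ (divisors e ×ˢ M).image (fun x : ℕ × ℕ => x.1 * x.2), s.selbergTerms l := by
          rw [Finset.sum_image hinj]
      _ ≤ _ := by
          apply Finset.sum_le_sum_of_subset_of_nonneg
          · intro l hl
            rw [Finset.mem_image] at hl
            obtain ⟨⟨f, m⟩, h1, rfl⟩ := hl
            simp only [Finset.mem_product, hM, Finset.mem_filter, Nat.mem_divisors] at h1
            rw [Finset.mem_filter, Nat.mem_divisors]
            refine ⟨⟨?_, hP0⟩, ?_⟩
            · exact ((Nat.Coprime.coprime_dvd_left h1.1.1 h1.2.2.1.symm)).mul_dvd_of_dvd_of_dvd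
                (h1.1.1.trans he) h1.2.1.1
            · have h3 : ((f * m : ℕ) : ℝ) ≤ ((e * m : ℕ) : ℝ) := by
                exact_mod_cast Nat.mul_le_mul_right m (Nat.le_of_dvd he0 h1.1.1)
              exact h3.trans h1.2.2.2
          · intro l hl _
            rw [Finset.mem_filter, Nat.mem_divisors] at hl
            exact (hgpos l hl.1.1).le
  -- sum over the divisors of e
  have hsum3 : (∑ f ∈ divisors e, s.selbergTerms f) = (s.nu e)⁻¹ * s.selbergTerms e := by
    have h1 : (∑ f ∈ divisors e, s.selbergTerms f) =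
        ∏ p ∈ e.primeFactors, (1 + s.selbergTerms p) := by
      rw [← hgmul.prodPrimeFactors_one_add_of_squarefree hesq]
    rw [h1, sv_terms S v X z d he0]
    have h2 : ((e.totient : ℕ) : ℝ) = (e : ℝ) * ∏ p ∈ e.primeFactors, (1 - 1 / (p : ℝ)) := by
      have := congrArg (fun q : ℚ => (q : ℝ)) (Nat.totient_eq_mul_prod_factors e)
      push_cast at this
      rw [this]
      congr 1
      apply Finset.prod_congr rfl
      intro p _
      rw [one_div]
    rw [h2]
    change _ = (nuI e)⁻¹ * _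
    rw [nuI_apply]
    have he1 : (e : ℝ) ≠ 0 := by exact_mod_cast he0.ne'
    have h3 : (1 / (e : ℝ))⁻¹ * (1 / ((e : ℝ) * ∏ p ∈ e.primeFactors, (1 - 1 / (p : ℝ)))) =
        (∏ p ∈ e.primeFactors, (1 - 1 / (p : ℝ)))⁻¹ := by
      field_simp
    rw [h3, ← Finset.prod_inv_distrib]
    apply Finset.prod_congr rfl
    intro p hp
    have hpp := Nat.prime_of_mem_primeFactors hp
    rw [hs, sv_terms S v X z d hpp.pos, Nat.totient_prime hpp]
    have h4 : (1 : ℝ) < p := by exact_mod_cast hpp.one_lt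
    rw [Nat.cast_sub hpp.one_lt.le]
    have h5 : (p : ℝ) - 1 ≠ 0 := by linarith
    have h6 : (p : ℝ) ≠ 0 := by linarith
    have h7 : (1 : ℝ) - 1 / p ≠ 0 := by
      rw [ne_eq, sub_eq_zero, eq_div_iff h6, one_mul]
      intro h; linarith
    push_cast
    field_simp
    ring
  have hMnn : 0 ≤ ∑ m ∈ M, s.selbergTerms m := by
    apply Finset.sum_nonneg
    intro m hm
    rw [hM, Finset.mem_filter, Nat.mem_divisors] at hm
    exact (hgpos m hm.1.1).le
  have hμ : |((μ e : ℤ) : ℝ)| ≤ 1 := by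
    have : |μ e| ≤ 1 := abs_moebius_le_one
    exact_mod_cast this
  have hnu : 0 < s.nu e := nu_pos_of_dvd_prodPrimes (s := s) he
  unfold selW
  rw [hsum1, abs_mul, abs_mul, abs_mul, abs_of_pos (inv_pos.mpr hnu), abs_of_pos (inv_pos.mpr hSpos),
    abs_of_nonneg (mul_nonneg (hgpos e he).le hMnn)]
  have hkey : (s.nu e)⁻¹ * s.selbergTerms e * ∑ m ∈ M, s.selbergTerms m ≤ selS s ξ := by
    rw [← hsum3]; exact hsum2
  calc (s.nu e)⁻¹ * |((μ e : ℤ) : ℝ)| * (selS s ξ)⁻¹ * (s.selbergTerms e * ∑ m ∈ M, s.selbergTerms m)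
      ≤ (s.nu e)⁻¹ * 1 * (selS s ξ)⁻¹ * (s.selbergTerms e * ∑ m ∈ M, s.selbergTerms m) := by
        have := (hgpos e he).le
        gcongr
    _ = (selS s ξ)⁻¹ * ((s.nu e)⁻¹ * s.selbergTerms e * ∑ m ∈ M, s.selbergTerms m) := by ring
    _ ≤ (selS s ξ)⁻¹ * selS s ξ := by gcongr
    _ = 1 := inv_mul_cancel₀ hSpos.ne'

end

/-- S1: Selberg's upper bound -/
theorem selberg {ι : Type} (S : Finset ι) (v : ι → ℕ) (X : ℝ) (hX : 0 ≤ X) (z d : ℕ)
    (hd : d.Coprime (PZ z)) (hd0 : 0 < d) (ξ : ℝ) (hξ : 1 ≤ ξ) :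
    sift S v d z ≤ X / d / GZ ξ z +
      ∑ l ∈ (PZ z).divisors.filter (fun l : ℕ => (l : ℝ) ≤ ξ ^ 2),
        (l.divisors.card : ℝ) ^ 2 * |rem S v X (d * l)| := by
  classical
  set s := sv S v X z d with hs
  have hPsq := PZ_sqf z
  have hP0 : PZ z ≠ 0 := hPsq.ne_zero
  have h := siftedSum_le_mainSum_errSum_of_upperMoebius (s := s)
    (lambdaSquared (selW s ξ)) (upperMoebius_lambdaSquared _ (selW_one s ξ hξ))
  rw [mainSum_selW s ξ hξ, sv_sifted, sv_S] at h
  refine h.trans ?_
  have h0 : s.totalMass = X / d := rfl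
  rw [h0, div_eq_mul_inv (X / d)]
  gcongr
  unfold errSum
  rw [Finset.sum_filter]
  apply Finset.sum_le_sum
  intro l hl
  have hlP : l ∣ PZ z := Nat.dvd_of_mem_divisors hl
  have hl0 : 0 < l := Nat.pos_of_mem_divisors hl
  have hrem : s.rem l = Pool.Agent.H476R2.Pal.rem S v X (d * l) :=
    sv_rem S v X z d hd0 hl0 (Nat.Coprime.coprime_dvd_right hlP hd)
  rw [hrem]
  split_ifs with hle
  · gcongr
    unfold lambdaSquared
    calc |∑ d1 ∈ l.divisors, ∑ d2 ∈ l.divisors,
          if l = Nat.lcm d1 d2 then selW s ξ d1 * selW s ξ d2 else 0|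
        ≤ ∑ d1 ∈ l.divisors, |∑ d2 ∈ l.divisors,
          if l = Nat.lcm d1 d2 then selW s ξ d1 * selW s ξ d2 else 0| := Finset.abs_sum_le_sum_abs _ _
      _ ≤ ∑ d1 ∈ l.divisors, ∑ d2 ∈ l.divisors, (1 : ℝ) := by
          apply Finset.sum_le_sum
          intro d1 h1
          refine (Finset.abs_sum_le_sum_abs _ _).trans ?_
          apply Finset.sum_le_sum
          intro d2 h2
          split_ifs
          · rw [abs_mul]
            have a1 := sv_W S v X z d hξ ((Nat.dvd_of_mem_divisors h1).trans hlP)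
            have a2 := sv_W S v X z d hξ ((Nat.dvd_of_mem_divisors h2).trans hlP)
            calc |selW s ξ d1| * |selW s ξ d2| ≤ 1 * 1 := by
                  apply mul_le_mul a1 a2 (abs_nonneg _) zero_le_one
              _ = 1 := one_mul 1
          · simp
      _ = (l.divisors.card : ℝ) ^ 2 := by
          simp [sq]
  · have hz : lambdaSquared (selW s ξ) l = 0 := by
      unfold lambdaSquared
      apply Finset.sum_eq_zero
      intro d1 h1
      apply Finset.sum_eq_zero
      intro d2 h2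
      split_ifs with hlcm
      · by_cases c1 : (d1 : ℝ) ≤ ξ
        · by_cases c2 : (d2 : ℝ) ≤ ξ
          · exfalso
            apply hle
            have h3 : l ≤ d1 * d2 := by
              rw [hlcm]
              exact Nat.le_of_dvd (Nat.mul_pos (Nat.pos_of_mem_divisors h1)
                (Nat.pos_of_mem_divisors h2)) (Nat.lcm_dvd_mul d1 d2)
            have h4 : (l : ℝ) ≤ d1 * d2 := by exact_mod_cast h3
            calc (l : ℝ) ≤ d1 * d2 := h4
              _ ≤ ξ * ξ := by gcongr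
              _ = ξ ^ 2 := by ring
          · rw [selW_eq_zero s ξ (not_le.1 c2), mul_zero]
        · rw [selW_eq_zero s ξ (not_le.1 c1), zero_mul]
      · rfl
    rw [hz]
    simp

end Pool.Agent.H605R2.PalS1
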