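import Pool.Agent.H295R2.Mol.Defs
import Pool.Agent.H295R2.P

/-!
T0a: Cauchy's formula on two vertical lines with the kernel `exp((s-s0)^2)/(s-s0)`.
-/

set_option autoImplicit false

open MeasureTheory Filter Topology Set

namespace Pool.Agent.H605R2.MolCauchy

open Complex

/-- the Gaussian is integrable -/
theorem int_gauss : Integrable (fun y : ℝ => Real.exp (-y ^ 2)) := by
  have := integrable_exp_neg_mul_sq (b := 1) one_pos
  simpa using this

theorem norm_E (d y : ℝ) : ‖cexp (((d : ℂ) + y * I) ^ 2)‖ = Real.exp (d ^ 2 - y ^ 2) := by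
  rw [Complex.norm_exp]
  congr 1
  simp [pow_two]

theorem gauss_line (d : ℝ) (hd : 0 < d) :
    ∫ y : ℝ, cexp (((d : ℂ) + y * I) ^ 2) / ((d : ℂ) + y * I) = (Real.pi : ℂ) := by
  have h1 : ∀ y : ℝ, cexp (((d : ℂ) + y * I) ^ 2) / ((d : ℂ) + y * I) =
      ∫ u in Ioi (0 : ℝ), cexp (((d : ℂ) + y * I) ^ 2) * cexp (-((d : ℂ) + y * I) * u) := by
    intro y
    rw [MeasureTheory.integral_const_mul, integral_exp_mul_complex_Ioi (by simpa using hd)]
    rw [Complex.ofReal_zero, mul_zero, Complex.exp_zero, neg_div_neg_eq, mul_one_div]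
  have hint : Integrable (Function.uncurry fun (y u : ℝ) =>
      cexp (((d : ℂ) + y * I) ^ 2) * cexp (-((d : ℂ) + y * I) * u))
      (volume.prod (volume.restrict (Ioi (0 : ℝ)))) := by
    have hi : Integrable (fun z : ℝ × ℝ => Real.exp (d ^ 2) * Real.exp (-z.1 ^ 2) *
        Real.exp (-d * z.2)) (volume.prod (volume.restrict (Ioi (0 : ℝ)))) := by
      have e1 : Integrable (fun y : ℝ => Real.exp (d ^ 2) * Real.exp (-y ^ 2)) :=
        int_gauss.const_mul _
      have e2 : IntegrableOn (fun u : ℝ => Real.exp (-d * u)) (Ioi 0) :=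
        integrableOn_exp_mul_Ioi (by linarith) 0
      exact e1.mul_prod e2
    refine hi.mono' ?_ (Eventually.of_forall fun z => ?_)
    · refine Continuous.aestronglyMeasurable ?_
      unfold Function.uncurry
      fun_prop
    · unfold Function.uncurry
      simp only
      rw [norm_mul, norm_E, Complex.norm_exp, sub_eq_add_neg, Real.exp_add]
      refine le_of_eq ?_
      congr 2
      simp
  simp_rw [h1]
  rw [integral_integral_swap hint]
  have h2 : ∀ u : ℝ, ∫ y : ℝ, cexp (((d : ℂ) + y * I) ^ 2) * cexp (-((d : ℂ) + y * I) * u) =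
      (Real.sqrt Real.pi * Real.exp (-(1 / 4) * u ^ 2) : ℝ) := by
    intro u
    have e1 : ∀ y : ℝ, cexp (((d : ℂ) + y * I) ^ 2) * cexp (-((d : ℂ) + y * I) * u) =
        cexp ((-1 : ℂ) * (y : ℂ) ^ 2 + (I * (2 * d - u)) * y + ((d : ℂ) ^ 2 - d * u)) := by
      intro y
      rw [← Complex.exp_add]
      congr 1
      have hI : I ^ 2 = -1 := Complex.I_sq
      linear_combination (y : ℂ) ^ 2 * hI
    simp_rw [e1]
    rw [integral_cexp_quadratic (by simp)]
    have e2 : (d : ℂ) ^ 2 - d * u - (I * (2 * d - u)) ^ 2 / (4 * (-1)) = -(1 / 4) * (u : ℂ) ^ 2 := by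
      have hI : I ^ 2 = -1 := Complex.I_sq
      rw [mul_pow, hI]
      ring
    rw [e2]
    have e3 : ((Real.pi : ℂ) / - (-1)) ^ (1 / 2 : ℂ) = (Real.sqrt Real.pi : ℂ) := by
      rw [neg_neg, div_one, Real.sqrt_eq_rpow, Complex.ofReal_cpow Real.pi_pos.le]
      norm_num
    rw [e3]
    push_cast
    rfl
  simp_rw [h2]
  rw [integral_complex_ofReal, MeasureTheory.integral_const_mul, integral_gaussian_Ioi]
  have e4 : Real.sqrt Real.pi * (Real.sqrt (Real.pi / (1 / 4)) / 2) = Real.pi := by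
    have : Real.pi / (1 / 4) = 2 ^ 2 * Real.pi := by ring
    rw [this, Real.sqrt_mul (by norm_num), Real.sqrt_sq (by norm_num)]
    have := Real.mul_self_sqrt Real.pi_pos.le
    linarith
  rw [e4]

theorem gauss_line_neg (d : ℝ) (hd : d < 0) :
    ∫ y : ℝ, cexp (((d : ℂ) + y * I) ^ 2) / ((d : ℂ) + y * I) = -(Real.pi : ℂ) := by
  rw [← gauss_line (-d) (by linarith), ← integral_neg_eq_self, ← MeasureTheory.integral_neg]
  congr 1
  funext y
  have e : (((-d : ℝ) : ℂ) + y * I) = -((d : ℂ) + ((-y : ℝ) : ℂ) * I) := by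
    push_cast
    ring
  rw [e, neg_sq, div_neg, neg_neg]

/-- the kernel integral on a line -/
theorem kernel_line (b : ℝ) (s0 : ℂ) :
    ∫ t : ℝ, cexp (((b : ℂ) + t * I - s0) ^ 2) / ((b : ℂ) + t * I - s0) =
      ∫ y : ℝ, cexp ((((b - s0.re : ℝ) : ℂ) + y * I) ^ 2) / (((b - s0.re : ℝ) : ℂ) + y * I) := by
  rw [← integral_sub_right_eq_self (fun y : ℝ =>
    cexp ((((b - s0.re : ℝ) : ℂ) + y * I) ^ 2) / (((b - s0.re : ℝ) : ℂ) + y * I)) s0.im]
  congr 1
  funext t
  have e : (b : ℂ) + t * I - s0 = ((b - s0.re : ℝ) : ℂ) + ((t - s0.im : ℝ) : ℂ) * I := by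
    apply Complex.ext <;> simp
  rw [e]

theorem kernel_int (b : ℝ) (s0 : ℂ) (hb : b ≠ s0.re) :
    Integrable (fun t : ℝ => cexp (((b : ℂ) + t * I - s0) ^ 2) / ((b : ℂ) + t * I - s0)) := by
  have hne : ∀ t : ℝ, (b : ℂ) + t * I - s0 ≠ 0 := by
    intro t h
    have := congrArg Complex.re h
    simp at this
    exact hb (by linarith)
  have h1 : Integrable (fun t : ℝ => Real.exp ((b - s0.re) ^ 2) / |b - s0.re| *
      Real.exp (-(t - s0.im) ^ 2)) := (int_gauss.comp_sub_right s0.im).const_mul _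
  refine h1.mono' (Continuous.aestronglyMeasurable ?_) (Eventually.of_forall fun t => ?_)
  · exact Continuous.div (by fun_prop) (by fun_prop) hne
  · have e : (b : ℂ) + t * I - s0 = ((b - s0.re : ℝ) : ℂ) + ((t - s0.im : ℝ) : ℂ) * I := by
      apply Complex.ext <;> simp
    rw [norm_div, e, norm_E, sub_eq_add_neg, Real.exp_add]
    have h2 : |b - s0.re| ≤ ‖((b - s0.re : ℝ) : ℂ) + ((t - s0.im : ℝ) : ℂ) * I‖ := by
      have := Complex.abs_re_le_norm (((b - s0.re : ℝ) : ℂ) + ((t - s0.im : ℝ) : ℂ) * I)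
      simpa using this
    have h3 : 0 < |b - s0.re| := abs_pos.2 (sub_ne_zero.2 hb)
    calc Real.exp ((b - s0.re) ^ 2) * Real.exp (-(t - s0.im) ^ 2) /
          ‖((b - s0.re : ℝ) : ℂ) + ((t - s0.im : ℝ) : ℂ) * I‖
        ≤ Real.exp ((b - s0.re) ^ 2) * Real.exp (-(t - s0.im) ^ 2) / |b - s0.re| := by gcongr
      _ = _ := by ring

/-- polynomial times Gaussian is bounded -/
theorem poly_gauss (K t0 : ℝ) : ∃ B : ℝ, 0 < B ∧ ∀ t : ℝ,
    (1 + |t|) ^ K * Real.exp (-(t - t0) ^ 2) ≤ B := by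
  set n := ⌈K⌉₊
  refine ⟨n.factorial * Real.exp (3 / 2 + t0 ^ 2), by positivity, fun t => ?_⟩
  have h0 : (1 : ℝ) ≤ 1 + |t| := by linarith [abs_nonneg t]
  have h1 : (1 + |t|) ^ K ≤ (1 + |t|) ^ n := by
    rw [← Real.rpow_natCast]
    exact Real.rpow_le_rpow_of_exponent_le h0 (Nat.le_ceil K)
  have h2 : (1 + |t|) ^ n ≤ n.factorial * Real.exp (1 + |t|) := by
    have := Real.pow_div_factorial_le_exp (1 + |t|) (by linarith) n
    rw [div_le_iff₀ (by positivity)] at this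
    linarith
  calc (1 + |t|) ^ K * Real.exp (-(t - t0) ^ 2)
      ≤ (n.factorial * Real.exp (1 + |t|)) * Real.exp (-(t - t0) ^ 2) := by
        gcongr
        exact h1.trans h2
    _ = n.factorial * Real.exp (1 + |t| + -(t - t0) ^ 2) := by
        rw [mul_assoc, ← Real.exp_add]
    _ ≤ n.factorial * Real.exp (3 / 2 + t0 ^ 2) := by
        refine mul_le_mul_of_nonneg_left (Real.exp_le_exp.2 ?_) (by positivity)
        have h3 : |t| ^ 2 = t ^ 2 := sq_abs t
        nlinarith [sq_nonneg (|t| - 1), sq_nonneg (t - 2 * t0)]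

theorem cauchy : Pool.Agent.H295R2.Mol.Cauchy := by
  intro H a b s0 ha hb hH hgr
  obtain ⟨C, A, hgr⟩ := hgr
  have hC0 : 0 ≤ C := by
    have := (norm_nonneg _).trans (hgr s0 ha.le hb.le)
    have h2 : (0 : ℝ) < (1 + |s0.im|) ^ A := by positivity
    exact nonneg_of_mul_nonneg_left this h2
  set Q : ℂ → ℂ := dslope H s0 with hQ
  have hQd : Differentiable ℂ Q := by
    intro s
    have := (Complex.differentiableOn_dslope (s := univ) (c := s0) univ_mem).2
      hH.differentiableOn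
    exact (this s (mem_univ s)).differentiableAt univ_mem
  set D : ℂ → ℂ := fun s => cexp ((s - s0) ^ 2) * Q s with hD
  have hDd : Differentiable ℂ D := by
    rw [hD]
    fun_prop
  -- the norm of the exponential
  have hE : ∀ s : ℂ, a ≤ s.re → s.re ≤ b → ‖cexp ((s - s0) ^ 2)‖ ≤
      Real.exp ((b - a) ^ 2) * Real.exp (-(s.im - s0.im) ^ 2) := by
    intro s h1 h2
    rw [Complex.norm_exp, ← Real.exp_add]
    refine Real.exp_le_exp.2 ?_
    have e : ((s - s0) ^ 2).re = (s.re - s0.re) ^ 2 - (s.im - s0.im) ^ 2 := by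
      simp [pow_two]
    rw [e]
    have h3 : (s.re - s0.re) ^ 2 ≤ (b - a) ^ 2 := by
      apply sq_le_sq'
      · linarith
      · linarith
    linarith
  obtain ⟨B1, hB1, hp1⟩ := poly_gauss (A + 3 / 2) s0.im
  obtain ⟨B2, hB2, hp2⟩ := poly_gauss (3 / 2) s0.im
  -- bound far away
  have hfar : ∀ s : ℂ, a ≤ s.re → s.re ≤ b → |s0.im| + 1 ≤ |s.im| → ‖D s‖ ≤
      (Real.exp ((b - a) ^ 2) * (C * B1 + ‖H s0‖ * B2)) * (1 + |s.im|) ^ (-(3 / 2 : ℝ)) := by
    intro s h1 h2 h3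
    have h4 : 1 ≤ ‖s - s0‖ := by
      have h5 := Complex.abs_im_le_norm (s - s0)
      rw [Complex.sub_im] at h5
      have h6 := abs_sub_abs_le_abs_sub s.im s0.im
      linarith
    have hne : s ≠ s0 := by
      rintro rfl
      simp at h4
      linarith
    have h5 : ‖Q s‖ ≤ C * (1 + |s.im|) ^ A + ‖H s0‖ := by
      rw [hQ, dslope_of_ne _ hne, slope_def_field, norm_div]
      calc ‖H s - H s0‖ / ‖s - s0‖ ≤ ‖H s - H s0‖ / 1 := by gcongr
        _ = ‖H s - H s0‖ := div_one _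
        _ ≤ ‖H s‖ + ‖H s0‖ := norm_sub_le _ _
        _ ≤ _ := by linarith [hgr s h1 h2]
    have hx : (0 : ℝ) < 1 + |s.im| := by positivity
    have hx1 : (1 + |s.im|) ^ (3 / 2 : ℝ) * (1 + |s.im|) ^ (-(3 / 2 : ℝ)) = 1 := by
      rw [← Real.rpow_add hx]
      simp
    have hx2 : (1 + |s.im|) ^ (A + 3 / 2) * (1 + |s.im|) ^ (-(3 / 2 : ℝ)) = (1 + |s.im|) ^ A := by
      rw [← Real.rpow_add hx]
      congr 1
      ring
    have hg : 0 < Real.exp (-(s.im - s0.im) ^ 2) := Real.exp_pos _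
    have hq : 0 < (1 + |s.im|) ^ (-(3 / 2 : ℝ)) := by positivity
    calc ‖D s‖ = ‖cexp ((s - s0) ^ 2)‖ * ‖Q s‖ := norm_mul _ _
      _ ≤ (Real.exp ((b - a) ^ 2) * Real.exp (-(s.im - s0.im) ^ 2)) *
          (C * (1 + |s.im|) ^ A + ‖H s0‖) := by
          gcongr
          exact hE s h1 h2
      _ = Real.exp ((b - a) ^ 2) *
          (C * (((1 + |s.im|) ^ (A + 3 / 2) * Real.exp (-(s.im - s0.im) ^ 2)) *
              (1 + |s.im|) ^ (-(3 / 2 : ℝ))) +
            ‖H s0‖ * (((1 + |s.im|) ^ (3 / 2 : ℝ) * Real.exp (-(s.im - s0.im) ^ 2)) *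
              (1 + |s.im|) ^ (-(3 / 2 : ℝ)))) := by
          rw [← hx2]
          linear_combination (-(Real.exp ((b - a) ^ 2) * ‖H s0‖ *
            Real.exp (-(s.im - s0.im) ^ 2))) * hx1
      _ ≤ Real.exp ((b - a) ^ 2) *
          (C * (B1 * (1 + |s.im|) ^ (-(3 / 2 : ℝ))) +
            ‖H s0‖ * (B2 * (1 + |s.im|) ^ (-(3 / 2 : ℝ)))) := by
          have g1 := hp1 s.im
          have g2 := hp2 s.im
          gcongr
      _ = _ := by ring
  -- bound on the compact part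
  obtain ⟨M, hM⟩ : ∃ M : ℝ, ∀ s : ℂ, a ≤ s.re → s.re ≤ b → |s.im| ≤ |s0.im| + 1 → ‖D s‖ ≤ M := by
    have hK : IsCompact (Icc a b ×ℂ Icc (-(|s0.im| + 1)) (|s0.im| + 1)) :=
      isCompact_Icc.reProdIm isCompact_Icc
    obtain ⟨M, hM⟩ := hK.exists_bound_of_continuousOn hDd.continuous.continuousOn
    refine ⟨M, fun s h1 h2 h3 => hM s ?_⟩
    rw [Complex.mem_reProdIm]
    exact ⟨⟨h1, h2⟩, abs_le.1 h3⟩
  set M' := max M 0 with hM'
  set B3 := Real.exp ((b - a) ^ 2) * (C * B1 + ‖H s0‖ * B2) with hB3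
  have hB3' : 0 ≤ B3 := by positivity
  have hbd : ∀ s : ℂ, a ≤ s.re → s.re ≤ b → ‖D s‖ ≤
      (B3 + M' * (2 + |s0.im|) ^ (3 / 2 : ℝ)) * (1 + |s.im|) ^ (-(3 / 2 : ℝ)) := by
    intro s h1 h2
    have hq : 0 < (1 + |s.im|) ^ (-(3 / 2 : ℝ)) := by positivity
    have hM0 : 0 ≤ M' := le_max_right _ _
    rcases le_total (|s0.im| + 1) |s.im| with h3 | h3
    · refine (hfar s h1 h2 h3).trans ?_
      have : 0 ≤ M' * (2 + |s0.im|) ^ (3 / 2 : ℝ) := by positivity
      gcongr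
      linarith
    · have h4 : ‖D s‖ ≤ M' := (hM s h1 h2 h3).trans (le_max_left _ _)
      have hx : (0 : ℝ) < 1 + |s.im| := by positivity
      have h5 : (1 + |s.im|) ^ (3 / 2 : ℝ) ≤ (2 + |s0.im|) ^ (3 / 2 : ℝ) := by
        apply Real.rpow_le_rpow hx.le _ (by norm_num)
        linarith
      have hx1 : (1 + |s.im|) ^ (3 / 2 : ℝ) * (1 + |s.im|) ^ (-(3 / 2 : ℝ)) = 1 := by
        rw [← Real.rpow_add hx]
        simp
      have h6 : 1 ≤ (2 + |s0.im|) ^ (3 / 2 : ℝ) * (1 + |s.im|) ^ (-(3 / 2 : ℝ)) :=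
        hx1.symm.le.trans (mul_le_mul_of_nonneg_right h5 hq.le)
      calc ‖D s‖ ≤ M' * 1 := by rw [mul_one]; exact h4
        _ ≤ M' * ((2 + |s0.im|) ^ (3 / 2 : ℝ) * (1 + |s.im|) ^ (-(3 / 2 : ℝ))) := by gcongr
        _ = 0 * (1 + |s.im|) ^ (-(3 / 2 : ℝ)) +
            M' * (2 + |s0.im|) ^ (3 / 2 : ℝ) * (1 + |s.im|) ^ (-(3 / 2 : ℝ)) := by ring
        _ ≤ B3 * (1 + |s.im|) ^ (-(3 / 2 : ℝ)) +
            M' * (2 + |s0.im|) ^ (3 / 2 : ℝ) * (1 + |s.im|) ^ (-(3 / 2 : ℝ)) := by gcongr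
        _ = _ := by ring
  have hab : a ≤ b := (ha.trans hb).le
  have hshift := Pool.Agent.H295R2.contour_shift hab (fun s _ _ => hDd s) hbd
  have hline : ∀ x : ℝ, a ≤ x → x ≤ b → x ≠ s0.re →
      ∫ t : ℝ, H (x + t * I) * (cexp ((x + t * I - s0) ^ 2) / (x + t * I - s0)) =
        (∫ t : ℝ, D (x + t * I)) +
          H s0 * ∫ t : ℝ, cexp (((x : ℂ) + t * I - s0) ^ 2) / ((x : ℂ) + t * I - s0) := by
    intro x hx1 hx2 hx3
    have i1 : Integrable (fun t : ℝ => D (x + t * I)) :=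
      Pool.Agent.H295R2.vertical_integrable (fun s _ => hDd.continuous.continuousAt)
        (fun s hs => hbd s (hs ▸ hx1) (hs ▸ hx2))
    have i2 := (kernel_int x s0 hx3).const_mul (H s0)
    rw [← MeasureTheory.integral_const_mul, ← integral_add i1 i2]
    congr 1
    funext t
    have hne : (x : ℂ) + t * I ≠ s0 := by
      intro h
      have := congrArg Complex.re h
      simp at this
      exact hx3 this
    have hne' : (x : ℂ) + t * I - s0 ≠ 0 := sub_ne_zero.2 hne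
    rw [hD, hQ]
    simp only
    rw [dslope_of_ne _ hne, slope_def_field]
    field_simp
    ring
  rw [hline b hab le_rfl hb.ne', hline a le_rfl hab ha.ne, hshift, kernel_line, kernel_line,
    gauss_line _ (by linarith), gauss_line_neg _ (by linarith)]
  ring

end Pool.Agent.H605R2.MolCauchy
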